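import Pool.Agent.R615.Cryst.Grp

set_option autoImplicit false

/-!
# Two elements of `T ⋊ S_5` with the same type which are not related by an automorphism
-/

open FirstOrder FirstOrder.Language

namespace Pool.Agent.R615.Cryst

/-- the cycle `x ↦ x + 1` -/
def sg : Equiv.Perm (ZMod 5) := Equiv.addRight 1

/-- the permutation `x ↦ 2 x` -/
def gm : Equiv.Perm (ZMod 5) where
  toFun x := 2 * x
  invFun x := 3 * x
  left_inv := by decide
  right_inv := by decide

theorem sg_inv (x : ZMod 5) : sg⁻¹ x = x - 1 := by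
  rw [Equiv.Perm.inv_eq_iff_eq]
  simp [sg]

/-- the vector `-4, 1, 1, 1, 1` -/
def y0 : ZMod 5 → ℤ := fun x => if x = 0 then -4 else 1

theorem OK_smul {y : ZMod 5 → ℤ} (h : OK y) (m : ℤ) : OK (fun x => m * y x) := by
  refine ⟨?_, fun x x' => ?_⟩
  · rw [← Finset.mul_sum, h.1, mul_zero]
  · rw [← mul_sub]
    exact (h.2 x x').mul_left m

theorem OK_y0 : OK y0 := by
  unfold OK y0
  decide

/-- the element `(m y0, sg)` -/
def um (m : ℤ) : GG := ⟨fun x => m * y0 x, sg, OK_smul OK_y0 m⟩

/-- the vector `-10, -5, 0, 5, 10` -/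
def s1 : ZMod 5 → ℤ := fun x => 5 * (x.val : ℤ) - 10

theorem OK_s1 : OK s1 := by
  unfold OK s1
  decide

theorem s1_sub : ∀ x : ZMod 5, s1 x - s1 (x - 1) = 5 * y0 x := by
  unfold s1 y0
  decide

theorem s1_inj : ∀ x x' : ZMod 5, s1 x = s1 x' → x = x' := by
  unfold s1
  decide

/-- the translation by `k s1` -/
def sm (k : ℤ) : GG := ⟨fun x => k * s1 x, 1, OK_smul OK_s1 k⟩

theorem um_conj (m k : ℤ) : sm k * um m * (sm k)⁻¹ = um (m + 5 * k) := by
  refine GG.ext (funext fun x => ?_) ?_
  · have h := s1_sub x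
    simp only [GG.mul_y, GG.mul_p, GG.inv_y, sm, um, one_mul, Equiv.Perm.one_apply, sg_inv, inv_one]
    linear_combination k * h
  · simp [sm, um]

/-- the relation between the elements `um 1` and `um m` -/
theorem um_rel (N M : ℕ) (m : ℤ) (h0 : m ≠ 0) (hm : IsCoprime m (N : ℤ)) :
    GRel N M (fun _ : Fin 1 => um 1) (fun _ : Fin 1 => um m) := by
  obtain ⟨m', b, hb⟩ := hm
  refine ⟨fun _ => rfl, ⟨m, m', ⟨-b, by linarith⟩, fun q => ?_⟩, fun c _ => ?_⟩
  · simp [crd, um]
  · have e : ∑ i, c i * crd (fun _ : Fin 1 => um m) i =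
        m * ∑ i, c i * crd (fun _ : Fin 1 => um 1) i := by
      rw [Finset.mul_sum]
      refine Finset.sum_congr rfl fun i _ => ?_
      simp only [crd, um]
      ring
    rw [e, mul_eq_zero, or_iff_right h0]

/-- automorphisms preserve types -/
theorem realize_aut {G : Type} [Group G] (α : G ≃* G) {k : ℕ} (u : Fin k → G)
    (φ : grpLang.Formula (Fin k)) : φ.Realize (fun i => α (u i)) ↔ φ.Realize u := by
  let β : G ≃[grpLang] G :=
    { toEquiv := α.toEquiv
      map_fun' := by
        intro n f x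
        cases f with
        | mul => exact map_mul α _ _
        | inv => exact map_inv α _
        | one => exact map_one α
      map_rel' := by
        intro n r
        exact r.elim }
  exact StrongHomClass.realize_formula β φ

theorem same_type : SameType (fun _ : Fin 1 => um 1) (fun _ : Fin 1 => um 2) := by
  intro φ
  obtain ⟨N, M, hN, hM, h⟩ := formula_transfer φ
  -- a prime which is congruent to `2` modulo `5` and coprime to `N`
  obtain ⟨p, hp, hpp, hp2⟩ := Nat.forall_exists_prime_gt_and_eq_mod (q := 5) (a := 2)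
    (by decide) N
  have hp3 : IsCoprime (p : ℤ) (N : ℤ) := by
    rw [Nat.isCoprime_iff_coprime]
    exact (Nat.Prime.coprime_iff_not_dvd hpp).2 fun h => by
      have := Nat.le_of_dvd hN h
      omega
  have hp4 : (p : ℤ) ≠ 0 := by
    have := hpp.pos
    exact_mod_cast this.ne'
  have h1 : GRel N M (Sum.elim (fun _ : Fin 1 => um 1) (default : Fin 0 → GG))
      (Sum.elim (fun _ : Fin 1 => um p) (default : Fin 0 → GG)) := by
    have h2 := (um_rel N M p hp4 hp3).equiv (Equiv.sumEmpty (Fin 1) (Fin 0))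
    convert h2 using 1
    · funext k
      rcases k with k | k
      · rfl
      · exact k.elim0
    · funext k
      rcases k with k | k
      · rfl
      · exact k.elim0
  have h2 := h _ _ _ _ h1
  -- `um p` and `um 2` are conjugate
  obtain ⟨k, hk⟩ : ∃ k : ℤ, (p : ℤ) = 2 + 5 * k := by
    have h3 : ((p : ℤ) : ZMod 5) = ((2 : ℤ) : ZMod 5) := by
      push_cast
      exact hp2
    have h4 := (ZMod.intCast_eq_intCast_iff_dvd_sub _ _ 5).1 h3
    obtain ⟨k, hk⟩ := h4
    exact ⟨-k, by push_cast at hk; linarith⟩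
  have h3 := realize_aut (MulAut.conj (sm k)) (fun _ : Fin 1 => um 2) φ
  have h4 : (fun _ : Fin 1 => MulAut.conj (sm k) (um 2)) = fun _ => um p := by
    funext _
    rw [MulAut.conj_apply, um_conj, ← hk]
  rw [h4] at h3
  exact h2.trans h3

/-! ### No automorphism maps `um 1` to `um 2` -/

/-- the translation by `5 e_i - (1,1,1,1,1)` -/
def B (i : ZMod 5) : GG := ⟨fun x => if x = i then 4 else -1, 1, by
  unfold OK
  revert i
  decide⟩

theorem pow_y (g : GG) (hg : g.p = 1) (n : ℕ) : (g ^ n).p = 1 ∧ ∀ x, (g ^ n).y x = n * g.y x := by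
  induction n with
  | zero => simp
  | succ n ih =>
    rw [pow_succ]
    refine ⟨by rw [GG.mul_p, ih.1, hg, one_mul], fun x => ?_⟩
    rw [GG.mul_y, ih.1, ih.2]
    push_cast
    simp only [inv_one, Equiv.Perm.one_apply]
    ring

theorem zpow_y (g : GG) (hg : g.p = 1) (n : ℤ) :
    (g ^ n).p = 1 ∧ ∀ x, (g ^ n).y x = n * g.y x := by
  obtain ⟨m, rfl | rfl⟩ := n.eq_nat_or_neg
  · rw [zpow_natCast]
    exact_mod_cast pow_y g hg m
  · rw [zpow_neg, zpow_natCast]
    obtain ⟨h1, h2⟩ := pow_y g hg m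
    refine ⟨by rw [GG.inv_p, h1, inv_one], fun x => ?_⟩
    rw [GG.inv_y, h1, h2]
    simp

theorem p_eq_one_iff (g : GG) : g.p = 1 ↔ ∀ x : GG, g * x ^ 120 = x ^ 120 * g := by
  constructor
  · intro hg x
    have hx : (x ^ 120).p = 1 := by
      have h1 : ∀ n : ℕ, (x ^ n).p = x.p ^ n := by
        intro n
        induction n with
        | zero => rfl
        | succ n ih => rw [pow_succ, pow_succ, GG.mul_p, ih]
      rw [h1]
      have h2 : Fintype.card (Equiv.Perm (ZMod 5)) = 120 := by
        rw [Fintype.card_perm, ZMod.card]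
        rfl
      rw [← h2]
      exact pow_card_eq_one
    refine GG.ext (funext fun z => ?_) ?_
    · rw [GG.mul_y, GG.mul_y, hg, hx]
      simp only [inv_one, Equiv.Perm.one_apply]
      ring
    · rw [GG.mul_p, GG.mul_p, hg, hx]
  · intro h
    have h1 := h (sm 1)
    obtain ⟨h2, h3⟩ := pow_y (sm 1) rfl 120
    have h4 : ∀ x, s1 (g.p⁻¹ x) = s1 x := by
      intro x
      have h5 := congrArg (fun a : GG => a.y x) h1
      have h3' : ∀ x, (sm 1 ^ 120).y x = 120 * s1 x := by
        intro x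
        rw [h3]
        simp [sm]
      simp only [GG.mul_y, h2, h3', inv_one, Equiv.Perm.one_apply] at h5
      linarith
    have h6 : ∀ x, g.p⁻¹ x = x := fun x => s1_inj _ _ (h4 x)
    ext x
    rw [← Equiv.Perm.inv_eq_iff_eq.1 (h6 x)]
    rfl

theorem aut_p (α : GG ≃* GG) (g : GG) (hg : g.p = 1) : (α g).p = 1 := by
  rw [p_eq_one_iff] at hg ⊢
  intro x
  have h := congrArg α (hg (α.symm x))
  simpa using h

/-- the permutation with `gm` as permutation part -/
def gg : GG := ⟨fun _ => 0, gm, by simp [OK]⟩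

theorem gg_um : gg * um 1 * gg⁻¹ = B 1 * (um 1 * um 1) := by
  refine GG.ext (funext fun x => ?_) ?_
  · simp only [GG.mul_y, GG.mul_p, GG.inv_y, gg, um, B, y0]
    revert x
    decide
  · simp only [GG.mul_p, GG.inv_p, gg, um, B]
    decide

theorem gg_B : gg * B 0 * gg⁻¹ = B 0 := by
  refine GG.ext (funext fun x => ?_) ?_
  · simp only [GG.mul_y, GG.mul_p, GG.inv_y, gg, B]
    revert x
    decide
  · simp only [GG.mul_p, GG.inv_p, gg, B]
    decide

theorem conj_y (g t : GG) (ht : t.p = 1) : (g * t * g⁻¹).p = 1 ∧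
    ∀ x, (g * t * g⁻¹).y x = t.y (g.p⁻¹ x) := by
  refine ⟨by simp [ht], fun x => ?_⟩
  simp [ht]

theorem um_B (g : GG) (hg : g.p = sg) (i : ZMod 5) : g * B i * g⁻¹ = B (i + 1) := by
  obtain ⟨h1, h2⟩ := conj_y g (B i) rfl
  refine GG.ext (funext fun x => ?_) h1
  rw [h2, hg, sg_inv]
  simp only [B, sub_eq_iff_eq_add]

/-- functions invariant under `x ↦ 2 x + j` -/
theorem inv_fun (j : ZMod 5) (a : ZMod 5 → ℤ) (h : ∀ x, a (2 * x + j) = a x) :
    ∀ x, x ≠ -j → a x = a (1 - j) := by
  intro x hx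
  have h1 : ∀ z, z ≠ 0 → a (z - j) = a (1 - j) := by
    have e : ∀ z, a (2 * z - j) = a (z - j) := by
      intro z
      rw [← h (z - j)]
      congr 1
      ring
    have e1 := e 1
    have e2 := e 2
    have e4 := e 4
    have q1 : (2 : ZMod 5) * 1 = 2 := by decide
    have q2 : (2 : ZMod 5) * 2 = 4 := by decide
    have q3 : (2 : ZMod 5) * 4 = 3 := by decide
    rw [q1] at e1
    rw [q2] at e2
    rw [q3] at e4
    intro z hz
    have : z = 0 ∨ z = 1 ∨ z = 2 ∨ z = 3 ∨ z = 4 := by
      revert z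
      decide
    rcases this with rfl | rfl | rfl | rfl | rfl
    · exact absurd rfl hz
    · rfl
    · exact e1
    · rw [e4, e2, e1]
    · rw [e2, e1]
  have h2 := h1 (x + j) (fun h => hx (eq_neg_of_add_eq_zero_left h))
  rwa [add_sub_cancel_right] at h2

theorem main_lemma (α : GG ≃* GG) (g g' : GG) (hg : g.p = sg) (hg' : g'.p = sg) (h : α g = g') :
    ∃ (k : ℤ) (x0 : ZMod 5), ∀ i, α (B i) = B (x0 + i) ^ k := by
  -- the images of the `B i`
  have h1 : ∀ i, α (B (i + 1)) = g' * α (B i) * g'⁻¹ := by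
    intro i
    rw [← um_B g hg i, map_mul, map_mul, map_inv, h]
  have hp : ∀ i, (α (B i)).p = 1 := fun i => aut_p α _ rfl
  have h2 : ∀ i x, (α (B (i + 1))).y x = (α (B i)).y (x - 1) := by
    intro i x
    rw [h1, (conj_y g' _ (hp i)).2, hg', sg_inv]
  have h3 : ∀ (n : ℕ) x, (α (B n)).y x = (α (B 0)).y (x - n) := by
    intro n
    induction n with
    | zero => intro x; simp
    | succ n ih =>
      intro x
      have := h2 (n : ZMod 5) x
      rw [ih] at this
      push_cast
      rw [this]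
      congr 1
      ring
  have h4 : ∀ i x, (α (B i)).y x = (α (B 0)).y (x - i) := by
    intro i x
    have := h3 i.val x
    rwa [ZMod.natCast_zmod_val] at this
  -- the image of `gg`
  let ρ : Equiv.Perm (ZMod 5) := (α gg).p
  have h5 : ρ * sg * ρ⁻¹ = sg * sg := by
    -- `g = t * um 1` for a translation `t`
    let t : GG := g * (um 1)⁻¹
    have ht : t.p = 1 := by simp [t, hg, um]
    have hu : (α (um 1)).p = sg := by
      have e : um 1 = t⁻¹ * g := by simp [t]
      rw [e, map_mul, h, GG.mul_p, hg', map_inv, GG.inv_p, aut_p α t ht]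
      simp
    have h6 := congrArg (fun a => (α a).p) gg_um
    simp only [map_mul, map_inv, GG.mul_p, GG.inv_p, hu] at h6
    rw [hp, one_mul] at h6
    exact h6
  have h6 : ∀ x, ρ (x + 1) = ρ x + 2 := by
    intro x
    have h7 : ρ * sg = sg * sg * ρ := by
      rw [← h5]
      group
    have h8 := congrArg (fun a : Equiv.Perm (ZMod 5) => a x) h7
    simp only [Equiv.Perm.mul_apply, sg, Equiv.coe_addRight] at h8
    rw [h8, add_assoc]
    rfl
  have h7 : ∀ n : ℕ, ρ n = 2 * n + ρ 0 := by
    intro n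
    induction n with
    | zero => simp
    | succ n ih =>
      push_cast
      rw [h6, ih]
      ring
  have h8 : ∀ x, ρ x = 2 * x + ρ 0 := by
    intro x
    have := h7 x.val
    rwa [ZMod.natCast_zmod_val] at this
  -- the image of `B 0` is invariant under `ρ`
  have h9 : ∀ x, (α (B 0)).y (2 * x + ρ 0) = (α (B 0)).y x := by
    intro x
    have h10 := congrArg α gg_B
    rw [map_mul, map_mul, map_inv] at h10
    have h11 := (conj_y (α gg) _ (hp 0)).2 (ρ x)
    rw [h10] at h11
    rw [← h8, h11]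
    congr 1
    exact Equiv.Perm.inv_eq_iff_eq.2 rfl
  have h10 := inv_fun _ _ h9
  set a := (α (B 0)).y with ha
  have hsum : ∑ x, a x = 0 := (α (B 0)).ok.1
  have hsum' : a (-ρ 0) = -4 * a (1 - ρ 0) := by
    rw [← Finset.add_sum_erase _ _ (Finset.mem_univ (-ρ 0)),
      Finset.sum_congr rfl (fun x hx => h10 x (Finset.ne_of_mem_erase hx)), Finset.sum_const,
      Finset.card_erase_of_mem (Finset.mem_univ _), Finset.card_univ, ZMod.card] at hsum
    simp only [nsmul_eq_mul] at hsum
    push_cast at hsum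
    linarith
  refine ⟨-a (1 - ρ 0), -ρ 0, fun i => ?_⟩
  obtain ⟨k1, k2⟩ := zpow_y (B (-ρ 0 + i)) rfl (-a (1 - ρ 0))
  refine GG.ext (funext fun x => ?_) ((hp i).trans k1.symm)
  rw [k2, h4]
  by_cases hx : x = -ρ 0 + i
  · have e : x - i = -ρ 0 := by rw [hx]; ring
    rw [e]
    change a _ = _
    rw [hsum']
    simp only [B, if_pos hx]
    ring
  · have e : x - i ≠ -ρ 0 := by
      intro h
      exact hx (by rw [← h]; ring)
    change a _ = _
    rw [h10 _ e]
    simp only [B, if_neg hx]
    ring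

/-- the homomorphism to `ℤ / 5` -/
def chi : GG →* Multiplicative (ZMod 5) where
  toFun g := Multiplicative.ofAdd ((g.y 0 : ℤ) : ZMod 5)
  map_one' := by simp
  map_mul' a b := by
    rw [← ofAdd_add]
    congr 1
    rw [GG.mul_y]
    push_cast
    congr 1
    exact (ZMod.intCast_eq_intCast_iff_dvd_sub _ _ 5).2 (by exact_mod_cast b.ok.2 _ _)

theorem chi_B (i : ZMod 5) : chi (B i) = Multiplicative.ofAdd (-1) := by
  change Multiplicative.ofAdd (((if (0 : ZMod 5) = i then 4 else -1 : ℤ)) : ZMod 5) = _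
  congr 1
  split_ifs
  · decide
  · decide

theorem no_aut (α : GG ≃* GG) : α (um 1) ≠ um 2 := by
  intro h
  obtain ⟨k, x0, hk⟩ := main_lemma α (um 1) (um 2) rfl rfl h
  obtain ⟨k', x0', hk'⟩ := main_lemma α.symm (um 2) (um 1) rfl rfl (by rw [← h]; simp)
  have h1 : k * k' = 1 := by
    have h2 := congrArg α (hk' 0)
    rw [MulEquiv.apply_symm_apply, map_zpow, hk, ← zpow_mul] at h2
    obtain ⟨k1, k2⟩ := zpow_y (B (x0 + (x0' + 0))) rfl (k * k')
    have h3 : ∀ x, (B 0).y x = k * k' * (B (x0 + (x0' + 0))).y x := by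
      intro x
      rw [← k2, ← h2]
    by_cases hx : x0 + (x0' + 0) = 0
    · rw [hx] at h3
      have := h3 0
      simp only [B, if_pos] at this
      linarith
    · have e1 := h3 0
      simp only [B, if_pos, if_neg (Ne.symm hx)] at e1
      have e2 := h3 (x0 + (x0' + 0))
      simp only [B, if_pos, if_neg hx] at e2
      exfalso
      have e3 : k * k' = -4 := by linarith
      rw [e3] at e2
      norm_num at e2
  have h2 : k = 1 ∨ k = -1 := Int.eq_one_or_neg_one_of_mul_eq_one h1
  -- apply `chi ∘ α` to the relation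
  have h3 := congrArg (fun a => chi (α a)) gg_um
  simp only [map_mul, map_inv, hk, h] at h3
  rw [mul_comm (chi (α gg)), mul_inv_cancel_right, map_zpow, chi_B] at h3
  have h4 : chi (um 2) = Multiplicative.ofAdd 2 := by
    change Multiplicative.ofAdd (((2 * y0 0 : ℤ)) : ZMod 5) = _
    congr 1
  rw [h4] at h3
  rcases h2 with rfl | rfl
  · revert h3
    decide
  · revert h3
    decide

end Pool.Agent.R615.Cryst
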