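import Mathlib

set_option autoImplicit false

/-!
# Crystallographic groups and homogeneous groups: definitions
-/

open FirstOrder FirstOrder.Language

namespace Pool.Agent.R615.Cryst

/-! ### First-order types in the language of groups -/

/-- The function symbols `·` (binary), `⁻¹` (unary) and `1` (constant). -/
inductive GrpFn : ℕ → Type
  | mul : GrpFn 2
  | inv : GrpFn 1
  | one : GrpFn 0

/-- The language of groups `{·, ⁻¹, 1}`; it has no relation symbols besides equality. -/
def grpLang : FirstOrder.Language.{0, 0} := ⟨GrpFn, fun _ => Empty⟩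

/-- Every group is a structure for the language of groups. -/
instance grpStructure (G : Type) [Group G] : grpLang.Structure G where
  funMap := fun {n} (f : GrpFn n) => match n, f with
    | _, .mul => fun x => x 0 * x 1
    | _, .inv => fun x => (x 0)⁻¹
    | _, .one => fun _ => 1
  RelMap := fun {_} r => Empty.elim r

/-- The tuples `u` and `v` of elements of the group `G` have the same type: they satisfy the same
first-order formulas (without parameters) in the language of groups. -/
def SameType {G : Type} [Group G] {k : ℕ} (u v : Fin k → G) : Prop :=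
  ∀ φ : grpLang.Formula (Fin k), φ.Realize u ↔ φ.Realize v

/-- The group `G` is homogeneous: for every `k`, any two `k`-tuples with the same type are related
by an automorphism of `G`. -/
def IsHomogeneous (G : Type) [Group G] : Prop :=
  ∀ (k : ℕ) (u v : Fin k → G), SameType u v → ∃ σ : G ≃* G, ∀ i, σ (u i) = v i

/-! ### Crystallographic groups -/

/-- The Euclidean space `ℝ^n`. -/
abbrev E (n : ℕ) : Type := EuclideanSpace ℝ (Fin n)

/-- The subgroup `Γ` of `Isom(ℝ^n)` is a crystallographic group. It is discrete: for every `R` only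
finitely many elements of `Γ` move the origin by at most `R`; and it is cocompact: for some `R`
every point of `ℝ^n` has distance at most `R` from the orbit of the origin. -/
structure IsCrystallographic {n : ℕ} (Γ : Subgroup (E n ≃ᵢ E n)) : Prop where
  discrete : ∀ R : ℝ, {g : E n ≃ᵢ E n | g ∈ Γ ∧ dist (g 0) 0 ≤ R}.Finite
  cocompact : ∃ R : ℝ, ∀ x : E n, ∃ g ∈ Γ, dist (g 0) x ≤ R

/-- The vectors of the translations in `Γ`. -/
def translationVectors {n : ℕ} (Γ : Subgroup (E n ≃ᵢ E n)) : Set (E n) :=
  {t | ∃ g ∈ Γ, ∀ x, g x = x + t}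

/-- `Γ` is split: it has a subgroup `K` such that every element of `Γ` is in exactly one way the
product of a translation in `Γ` and an element of `K` (so `Γ` is the semidirect product of its
normal subgroup `T` of translations and of `K`, which is isomorphic to the point group `Γ / T`). -/
def IsSplit {n : ℕ} (Γ : Subgroup (E n ≃ᵢ E n)) : Prop :=
  ∃ K : Subgroup (E n ≃ᵢ E n), K ≤ Γ ∧
    ∀ g ∈ Γ, ∃! a : (E n ≃ᵢ E n) × (E n ≃ᵢ E n),
      (a.1 ∈ Γ ∧ ∃ t, ∀ x, a.1 x = x + t) ∧ a.2 ∈ K ∧ g = a.1 * a.2

/-- `Γ` is irreducible: let `W` be the `ℚ`-vector space spanned by the translation vectors of `Γ`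
(so `W` is `T ⊗ ℚ` for the translation lattice `T`). The only `ℚ`-subspaces of `W` that are
invariant under the linear parts `v ↦ g v - g 0` of all elements `g` of `Γ` are `0` and `W`. -/
def IsIrreducible {n : ℕ} (Γ : Subgroup (E n ≃ᵢ E n)) : Prop :=
  ∀ S : Submodule ℚ (E n), S ≤ Submodule.span ℚ (translationVectors Γ) →
    (∀ g ∈ Γ, ∀ v ∈ S, g v - g 0 ∈ S) →
    S = ⊥ ∨ S = Submodule.span ℚ (translationVectors Γ)

end Pool.Agent.R615.Cryst
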