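import Pool.Agent.R615.Cryst.Aut

set_option autoImplicit false

/-!
# `T ⋊ S_5` as a crystallographic group
-/

open FirstOrder FirstOrder.Language

noncomputable section

namespace Pool.Agent.R615.Cryst

/-- the space `ℝ^5` -/
abbrev V5 : Type := EuclideanSpace ℝ (ZMod 5)

/-- the vector `(1,1,1,1,1)` -/
def one5 : V5 := WithLp.toLp 2 (fun _ => 1)

theorem one5_ne : one5 ≠ 0 := by
  intro h
  have := congrArg (fun v : V5 => v 0) h
  simp [one5] at this

/-- the hyperplane of the vectors with sum `0` -/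
abbrev V0 : Submodule ℝ V5 := (Submodule.span ℝ {one5})ᗮ

theorem mem_V0 (v : V5) : v ∈ V0 ↔ ∑ x, v x = 0 := by
  rw [Submodule.mem_orthogonal_singleton_iff_inner_right, PiLp.inner_apply]
  simp [one5]

instance : Fact (Module.finrank ℝ V5 = 4 + 1) := ⟨by simp [finrank_euclideanSpace]⟩

/-- an isometry of the hyperplane with `ℝ^4` -/
def Psi : V0 ≃ₗᵢ[ℝ] E 4 := (OrthonormalBasis.fromOrthogonalSpanSingleton 4 one5_ne).repr

/-- the element of `V0` with given coordinates -/
def mk (f : ZMod 5 → ℝ) (h : ∑ x, f x = 0) : V0 := ⟨WithLp.toLp 2 f, (mem_V0 _).2 h⟩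

@[simp] theorem mk_apply (f : ZMod 5 → ℝ) (h : ∑ x, f x = 0) (x : ZMod 5) :
    (mk f h : V5) x = f x := rfl

theorem V0_ext {v w : V0} (h : ∀ x, (v : V5) x = (w : V5) x) : v = w := by
  apply Subtype.ext
  ext x
  exact h x

theorem V0_sum (v : V0) : ∑ x, (v : V5) x = 0 := (mem_V0 _).1 v.2

/-- the action on the hyperplane -/
def act (g : GG) (v : V0) : V0 := mk (fun x => (v : V5) (g.p⁻¹ x) + g.y x) (by
  rw [Finset.sum_add_distrib, Equiv.sum_comp g.p⁻¹ (fun x => (v : V5) x), V0_sum, zero_add]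
  exact_mod_cast g.ok.1)

@[simp] theorem act_apply (g : GG) (v : V0) (x : ZMod 5) :
    (act g v : V5) x = (v : V5) (g.p⁻¹ x) + g.y x := rfl

theorem act_mul (g h : GG) (v : V0) : act (g * h) v = act g (act h v) := by
  apply V0_ext
  intro x
  simp only [act_apply, GG.mul_p, GG.mul_y, mul_inv_rev, Equiv.Perm.coe_mul, Function.comp_apply]
  push_cast
  ring

theorem act_one (v : V0) : act 1 v = v := by
  apply V0_ext
  intro x
  simp
  rfl

theorem act_dist (g : GG) (v w : V0) : dist (act g v) (act g w) = dist v w := by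
  rw [Subtype.dist_eq, Subtype.dist_eq, EuclideanSpace.dist_eq, EuclideanSpace.dist_eq]
  congr 1
  rw [← Equiv.sum_comp g.p⁻¹ (fun x => dist ((v : V5) x) ((w : V5) x) ^ 2)]
  refine Finset.sum_congr rfl fun x _ => ?_
  rw [act_apply, act_apply, dist_add_right]

/-- the action on `ℝ^4` by isometries -/
def iso (g : GG) : E 4 ≃ᵢ E 4 where
  toFun x := Psi (act g (Psi.symm x))
  invFun x := Psi (act g⁻¹ (Psi.symm x))
  left_inv x := by
    simp [← act_mul, act_one]
  right_inv x := by
    simp [← act_mul, act_one]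
  isometry_toFun := by
    refine Isometry.of_dist_eq fun x y => ?_
    rw [Psi.dist_map, act_dist, Psi.symm.dist_map]

theorem iso_apply (g : GG) (x : E 4) : iso g x = Psi (act g (Psi.symm x)) := rfl

/-- the embedding of the group into the group of isometries -/
def Phi : GG →* (E 4 ≃ᵢ E 4) where
  toFun := iso
  map_one' := by
    ext1 x
    simp [iso_apply, act_one]
  map_mul' g h := by
    ext1 x
    rw [IsometryEquiv.mul_apply, iso_apply, iso_apply, iso_apply, act_mul,
      LinearIsometryEquiv.symm_apply_apply]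

theorem Phi_apply (g : GG) (x : E 4) : Phi g x = Psi (act g (Psi.symm x)) := rfl

theorem Phi_Psi (g : GG) (v : V0) : Phi g (Psi v) = Psi (act g v) := by
  rw [Phi_apply, LinearIsometryEquiv.symm_apply_apply]

/-- the vector `s1` -/
def s1R : V0 := mk (fun x => (s1 x : ℝ)) (by exact_mod_cast OK_s1.1)

theorem s1R_inj (x x' : ZMod 5) (h : (s1R : V5) x = (s1R : V5) x') : x = x' := by
  have : (s1 x : ℝ) = s1 x' := h
  exact s1_inj x x' (by exact_mod_cast this)

theorem p_of_translation (g : GG) (t : E 4) (h : ∀ x, Phi g x = x + t) : g.p = 1 := by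
  have h0 := h (Psi 0)
  have h1 := h (Psi s1R)
  rw [Phi_Psi] at h0 h1
  have h2 : Psi (act g s1R) = Psi (s1R + act g 0) := by
    rw [h1, map_add, h0, map_zero, zero_add]
  have h3 := Psi.injective h2
  have h4 : ∀ x, g.p⁻¹ x = x := by
    intro x
    apply s1R_inj
    have h5 := congrArg (fun v : V0 => (v : V5) x) h3
    simp only [act_apply, Submodule.coe_add, PiLp.add_apply, ZeroMemClass.coe_zero,
      PiLp.zero_apply, zero_add] at h5
    linarith
  ext x
  rw [← Equiv.Perm.inv_eq_iff_eq.1 (h4 x)]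
  rfl

/-- the vector of the translation part -/
def vec (g : GG) : V0 := mk (fun x => (g.y x : ℝ)) (by exact_mod_cast g.ok.1)

theorem act_zero (g : GG) : act g 0 = vec g := by
  apply V0_ext
  intro x
  simp [vec]

theorem Phi_zero (g : GG) : Phi g 0 = Psi (vec g) := by
  rw [← map_zero Psi, Phi_Psi, act_zero]

theorem act_of_p (g : GG) (hg : g.p = 1) (v : V0) : act g v = v + vec g := by
  apply V0_ext
  intro x
  simp [vec, hg]
  rfl

theorem Phi_of_p (g : GG) (hg : g.p = 1) (x : E 4) : Phi g x = x + Psi (vec g) := by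
  rw [Phi_apply, act_of_p g hg, map_add, LinearIsometryEquiv.apply_symm_apply]

theorem vec_inj {g h : GG} (e : vec g = vec h) : g.y = h.y := by
  funext x
  have h1 : (g.y x : ℝ) = h.y x := congrArg (fun v : V0 => (v : V5) x) e
  exact_mod_cast h1

theorem Phi_injective : Function.Injective Phi := by
  rw [injective_iff_map_eq_one]
  intro g hg
  have h1 : g.p = 1 := p_of_translation g 0 (fun x => by rw [hg]; simp)
  have h2 : Phi g 0 = 0 := by rw [hg]; rfl
  rw [Phi_zero] at h2
  have h3 : vec g = vec 1 := by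
    have h4 : vec 1 = 0 := by
      apply V0_ext
      intro x
      simp [vec]
    rw [h4]
    exact (map_eq_zero_iff Psi Psi.injective).1 h2
  exact GG.ext (vec_inj h3) h1

/-- the crystallographic group -/
def Gam : Subgroup (E 4 ≃ᵢ E 4) := Phi.range

theorem mem_Gam {f : E 4 ≃ᵢ E 4} : f ∈ Gam ↔ ∃ g, Phi g = f := MonoidHom.mem_range

theorem abs_le_norm (v : V0) (x : ZMod 5) : |(v : V5) x| ≤ ‖v‖ := by
  have := PiLp.norm_apply_le (p := 2) (v : V5) x
  simpa using this

theorem norm_le_of (v : V0) (C : ℝ) (hC : 0 ≤ C) (h : ∀ x, |(v : V5) x| ≤ C) : ‖v‖ ≤ 5 * C := by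
  have h1 : ‖v‖ ^ 2 ≤ (5 * C) ^ 2 := by
    have h2 : ‖v‖ ^ 2 = ∑ x, (v : V5) x ^ 2 := by
      rw [← EuclideanSpace.real_norm_sq_eq]
      rfl
    rw [h2]
    have h3 : ∑ x, (v : V5) x ^ 2 ≤ ∑ _x : ZMod 5, C ^ 2 := by
      refine Finset.sum_le_sum fun x _ => ?_
      rw [← sq_abs]
      exact pow_le_pow_left₀ (abs_nonneg _) (h x) 2
    refine h3.trans ?_
    rw [Finset.sum_const, Finset.card_univ, ZMod.card]
    simp only [nsmul_eq_mul]
    push_cast
    nlinarith [sq_nonneg C]
  exact le_of_sq_le_sq h1 (by positivity) |>.trans le_rfl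

theorem crystallographic : IsCrystallographic Gam := by
  constructor
  · intro R
    have h1 : {g : GG | ∀ x, |g.y x| ≤ ⌊R⌋}.Finite := by
      have h2 : (Set.pi (Set.univ : Set (ZMod 5)) (fun _ => Set.Icc (-⌊R⌋) ⌊R⌋) ×ˢ
          (Set.univ : Set (Equiv.Perm (ZMod 5)))).Finite :=
        (Set.Finite.pi' fun _ => Set.finite_Icc _ _).subset (fun y hy => by
          intro x; exact hy x (Set.mem_univ _)) |>.prod Set.finite_univ
      refine Set.Finite.of_finite_image (f := fun g : GG => (g.y, g.p)) (h2.subset ?_) ?_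
      · rintro _ ⟨g, hg, rfl⟩
        exact ⟨fun x _ => abs_le.1 (hg x), Set.mem_univ _⟩
      · rintro g _ h _ e
        exact GG.ext (congrArg Prod.fst e) (congrArg Prod.snd e)
    refine (h1.image Phi).subset ?_
    rintro f ⟨hf, hR⟩
    obtain ⟨g, rfl⟩ := mem_Gam.1 hf
    refine ⟨g, fun x => ?_, rfl⟩
    rw [Phi_zero, dist_zero_right, LinearIsometryEquiv.norm_map] at hR
    have h3 := (abs_le_norm (vec g) x).trans hR
    have h4 : ((|g.y x| : ℤ) : ℝ) ≤ R := by
      push_cast
      exact h3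
    exact Int.le_floor.2 h4
  · refine ⟨5 * 20, fun x => ?_⟩
    let w : V0 := Psi.symm x
    let f : ZMod 5 → ℤ := fun z => 5 * ⌊(w : V5) z / 5⌋
    let y : ZMod 5 → ℤ := fun z => if z = 0 then f 0 - ∑ z, f z else f z
    have hy0 : y 0 = f 0 - ∑ z, f z := if_pos rfl
    have hyz : ∀ z, z ≠ 0 → y z = f z := fun z hz => if_neg hz
    have hsum : ∑ z, y z = 0 := by
      rw [← Finset.add_sum_erase _ _ (Finset.mem_univ (0 : ZMod 5)), hy0,
        Finset.sum_congr rfl (fun z hz => hyz z (Finset.ne_of_mem_erase hz)),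
        ← Finset.add_sum_erase _ f (Finset.mem_univ (0 : ZMod 5))]
      ring
    have hfd : ∀ z, (5 : ℤ) ∣ f z := fun z => ⟨_, rfl⟩
    have hyd : ∀ z, (5 : ℤ) ∣ y z := by
      intro z
      by_cases hz : z = 0
      · subst hz
        rw [hy0]
        exact dvd_sub (hfd 0) (Finset.dvd_sum fun z _ => hfd z)
      · rw [hyz z hz]
        exact hfd z
    let g : GG := ⟨y, 1, hsum, fun z z' => dvd_sub (hyd z) (hyd z')⟩
    refine ⟨Phi g, mem_Gam.2 ⟨g, rfl⟩, ?_⟩
    rw [Phi_zero]
    have h1 : dist (Psi (vec g)) x = ‖vec g - w‖ := by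
      rw [← dist_eq_norm, ← Psi.dist_map]
      simp [w]
    rw [h1]
    refine norm_le_of _ _ (by norm_num) fun z => ?_
    have hf : ∀ z, |(f z : ℝ) - (w : V5) z| ≤ 5 := by
      intro z
      have a1 := Int.floor_le ((w : V5) z / 5)
      have a2 := Int.lt_floor_add_one ((w : V5) z / 5)
      have a3 : (f z : ℝ) = 5 * (⌊(w : V5) z / 5⌋ : ℝ) := by
        change ((5 * ⌊(w : V5) z / 5⌋ : ℤ) : ℝ) = _
        push_cast
        rfl
      rw [a3, abs_le]
      constructor <;> linarith
    have e : ((vec g - w : V0) : V5) z = (y z : ℝ) - (w : V5) z := rfl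
    rw [e]
    by_cases hz : z = 0
    · subst hz
      have a1 : (y 0 : ℝ) - (w : V5) 0 = -∑ z ∈ Finset.univ.erase (0 : ZMod 5),
          ((f z : ℝ) - (w : V5) z) := by
        have a2 := V0_sum w
        rw [← Finset.add_sum_erase _ _ (Finset.mem_univ (0 : ZMod 5))] at a2
        rw [hy0, Finset.sum_sub_distrib, ← Finset.add_sum_erase _ f (Finset.mem_univ (0 : ZMod 5))]
        push_cast
        linarith
      rw [a1, abs_neg]
      refine (Finset.abs_sum_le_sum_abs _ _).trans ?_
      refine (Finset.sum_le_sum fun z _ => hf z).trans ?_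
      rw [Finset.sum_const, Finset.card_erase_of_mem (Finset.mem_univ _), Finset.card_univ,
        ZMod.card]
      norm_num
    · rw [hyz z hz]
      exact (hf z).trans (by norm_num)

theorem split : IsSplit Gam := by
  let K0 : Subgroup GG :=
    { carrier := {g | ∀ x, g.y x = 0}
      one_mem' := fun x => rfl
      mul_mem' := by
        intro a b ha hb x
        rw [GG.mul_y, ha, hb, add_zero]
      inv_mem' := by
        intro a ha x
        rw [GG.inv_y, ha, neg_zero] }
  refine ⟨K0.map Phi, ?_, ?_⟩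
  · rintro _ ⟨g, _, rfl⟩
    exact mem_Gam.2 ⟨g, rfl⟩
  · intro f hf
    obtain ⟨g, rfl⟩ := mem_Gam.1 hf
    let a : GG := ⟨g.y, 1, g.ok⟩
    let b : GG := ⟨fun _ => 0, g.p, by simp [OK]⟩
    have hab : g = a * b := GG.ext (funext fun x => by simp [a, b]) (by simp [a, b])
    refine ⟨(Phi a, Phi b), ⟨⟨mem_Gam.2 ⟨a, rfl⟩, Psi (vec a), Phi_of_p a rfl⟩,
      ⟨b, fun _ => rfl, rfl⟩, by rw [← map_mul, ← hab]⟩, ?_⟩
    rintro ⟨c, d⟩ ⟨⟨hc, t, ht⟩, ⟨d, hd, rfl⟩, hcd⟩
    obtain ⟨c, rfl⟩ := mem_Gam.1 hc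
    have hc1 := p_of_translation c t ht
    dsimp only at hcd
    rw [← map_mul] at hcd
    have h1 := Phi_injective hcd
    have hy : ∀ x, g.y x = c.y x := by
      intro x
      rw [h1, GG.mul_y, hd, add_zero]
    have hpp : g.p = d.p := by rw [h1, GG.mul_p, hc1, one_mul]
    have e1 : c = a := GG.ext (funext fun x => (hy x).symm) hc1
    have e2 : d = b := GG.ext (funext fun x => hd x) hpp.symm
    rw [e1, e2]

theorem translation_iff (t : E 4) : t ∈ translationVectors Gam ↔
    ∃ g : GG, g.p = 1 ∧ t = Psi (vec g) := by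
  constructor
  · rintro ⟨f, hf, h⟩
    obtain ⟨g, rfl⟩ := mem_Gam.1 hf
    refine ⟨g, p_of_translation g t h, ?_⟩
    have := h 0
    rw [zero_add, Phi_zero] at this
    exact this.symm
  · rintro ⟨g, hg, rfl⟩
    exact ⟨Phi g, mem_Gam.2 ⟨g, rfl⟩, Phi_of_p g hg⟩

/-- the vector `e_a - e_b` -/
def D (a b : ZMod 5) : V0 := mk (fun x => (if x = a then 1 else 0) - (if x = b then 1 else 0)) (by
  rw [Finset.sum_sub_distrib]
  simp)

/-- the permutation `p` as an element of the group -/
def pg (p : Equiv.Perm (ZMod 5)) : GG := ⟨fun _ => 0, p, by simp [OK]⟩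

theorem act_pg (p : Equiv.Perm (ZMod 5)) (v : V0) (x : ZMod 5) :
    (act (pg p) v : V5) x = (v : V5) (p⁻¹ x) := by
  rw [act_apply]
  change (v : V5) (p⁻¹ x) + ((0 : ℤ) : ℝ) = _
  rw [Int.cast_zero, add_zero]

theorem act_pg_zero (p : Equiv.Perm (ZMod 5)) : act (pg p) 0 = 0 := by
  apply V0_ext
  intro x
  rw [act_pg]
  simp

theorem irreducible : IsIrreducible Gam := by
  intro S hS hinv
  by_cases h0 : S = ⊥
  · exact Or.inl h0
  right
  refine le_antisymm hS ?_
  -- invariance under the permutations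
  have hperm : ∀ (p : Equiv.Perm (ZMod 5)) (v : V0), Psi v ∈ S → Psi (act (pg p) v) ∈ S := by
    intro p v hv
    have h1 := hinv (Phi (pg p)) (mem_Gam.2 ⟨_, rfl⟩) _ hv
    rw [Phi_Psi, ← map_zero Psi, Phi_Psi, act_pg_zero, map_zero, sub_zero] at h1
    exact h1
  -- rational coordinates
  let R : Submodule ℚ (E 4) :=
    { carrier := {s | ∀ x, ∃ q : ℚ, ((Psi.symm s : V0) : V5) x = q}
      zero_mem' := fun x => ⟨0, by simp⟩
      add_mem' := by
        intro s t hs ht x
        obtain ⟨q, hq⟩ := hs x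
        obtain ⟨r, hr⟩ := ht x
        refine ⟨q + r, ?_⟩
        rw [map_add, Submodule.coe_add, PiLp.add_apply, hq, hr]
        push_cast
        rfl
      smul_mem' := by
        intro c s hs x
        obtain ⟨q, hq⟩ := hs x
        refine ⟨c * q, ?_⟩
        have e : c • s = (c : ℝ) • s := (Rat.cast_smul_eq_qsmul ℝ c s).symm
        rw [e, map_smul, Submodule.coe_smul, PiLp.smul_apply, hq]
        push_cast
        rfl }
  have hR : Submodule.span ℚ (translationVectors Gam) ≤ R := by
    rw [Submodule.span_le]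
    intro t ht
    obtain ⟨g, -, rfl⟩ := (translation_iff t).1 ht
    intro x
    refine ⟨g.y x, ?_⟩
    rw [LinearIsometryEquiv.symm_apply_apply]
    push_cast
    rfl
  obtain ⟨s, hs, hs0⟩ := Submodule.exists_mem_ne_zero_of_ne_bot h0
  let w : V0 := Psi.symm s
  have hw : Psi w = s := Psi.apply_symm_apply s
  have hwq : ∀ x, ∃ q : ℚ, (w : V5) x = q := hR (hS hs)
  have hw0 : w ≠ 0 := by
    intro h
    apply hs0
    rw [← hw, h, map_zero]
  obtain ⟨a, b, hab⟩ : ∃ a b, (w : V5) a ≠ (w : V5) b := by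
    by_contra hc
    push Not at hc
    apply hw0
    apply V0_ext
    intro x
    have h1 := V0_sum w
    rw [Finset.sum_congr rfl (fun z _ => hc z x), Finset.sum_const, Finset.card_univ,
      ZMod.card, nsmul_eq_mul] at h1
    push_cast at h1
    have h2 : (w : V5) x = 0 := by linarith
    rw [h2]
    rfl
  have habn : a ≠ b := fun h => hab (by rw [h])
  have hD : Psi (D a b) ∈ S := by
    obtain ⟨qa, ha⟩ := hwq a
    obtain ⟨qb, hb⟩ := hwq b
    have h1 : Psi (w - act (pg (Equiv.swap a b)) w) ∈ S := by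
      rw [map_sub]
      refine S.sub_mem ?_ (hperm _ _ ?_) <;> rw [hw] <;> exact hs
    have hq : qa - qb ≠ 0 := by
      intro h
      apply hab
      rw [ha, hb, sub_eq_zero.1 h]
    have h2 : w - act (pg (Equiv.swap a b)) w = ((qa - qb : ℚ) : ℝ) • D a b := by
      apply V0_ext
      intro x
      rw [Submodule.coe_sub, PiLp.sub_apply, act_pg, Submodule.coe_smul, PiLp.smul_apply,
        Equiv.swap_inv]
      simp only [D, mk_apply, smul_eq_mul]
      push_cast
      by_cases hxa : x = a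
      · subst hxa
        rw [Equiv.swap_apply_left, if_pos rfl, if_neg habn, ha, hb]
        ring
      · by_cases hxb : x = b
        · subst hxb
          rw [Equiv.swap_apply_right, if_pos rfl, if_neg hxa, ha, hb]
          ring
        · rw [Equiv.swap_apply_of_ne_of_ne hxa hxb, if_neg hxa, if_neg hxb]
          ring
    have h3 := S.smul_mem (qa - qb)⁻¹ h1
    rw [h2, map_smul] at h3
    have e : (qa - qb)⁻¹ • (((qa - qb : ℚ) : ℝ) • Psi (D a b)) = Psi (D a b) := by
      rw [← Rat.cast_smul_eq_qsmul ℝ, smul_smul, ← Rat.cast_mul, inv_mul_cancel₀ hq, Rat.cast_one,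
        one_smul]
    rwa [e] at h3
  have hDD : ∀ c d : ZMod 5, Psi (D c d) ∈ S := by
    intro c d
    by_cases hcd : c = d
    · have : D c d = 0 := by
        apply V0_ext
        intro x
        simp [D, hcd]
      rw [this, map_zero]
      exact S.zero_mem
    · -- a permutation with `a ↦ c`, `b ↦ d`
      obtain ⟨p, hp1, hp2⟩ : ∃ p : Equiv.Perm (ZMod 5), p a = c ∧ p b = d := by
        refine ⟨Equiv.swap (Equiv.swap a c b) d * Equiv.swap a c, ?_, ?_⟩
        · rw [Equiv.Perm.mul_apply, Equiv.swap_apply_left, Equiv.swap_apply_of_ne_of_ne _ hcd]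
          intro h
          have := congrArg (Equiv.swap a c) h
          rw [Equiv.swap_apply_right, Equiv.swap_apply_self] at this
          exact habn this
        · rw [Equiv.Perm.mul_apply, Equiv.swap_apply_left]
      have h1 := hperm p _ hD
      have h2 : act (pg p) (D a b) = D c d := by
        apply V0_ext
        intro x
        rw [act_pg]
        simp only [D, mk_apply, Equiv.Perm.inv_eq_iff_eq, hp1, hp2]
      rwa [h2] at h1
  rw [Submodule.span_le]
  intro t ht
  obtain ⟨g, -, rfl⟩ := (translation_iff t).1 ht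
  have h1 : vec g = ∑ z, (g.y z : ℝ) • D z 0 := by
    apply V0_ext
    intro x
    have e : ((∑ z, (g.y z : ℝ) • D z 0 : V0) : V5) x = ∑ z, (g.y z : ℝ) * (D z 0 : V5) x := by
      rw [AddSubmonoidClass.coe_finsetSum]
      simp
    rw [e]
    simp only [D, mk_apply, vec, mul_sub, Finset.sum_sub_distrib]
    have h3 : ∑ z, (g.y z : ℝ) = 0 := by exact_mod_cast g.ok.1
    rw [← Finset.sum_mul, h3]
    simp
  rw [h1, map_sum]
  refine S.sum_mem fun z _ => ?_
  have h2 := S.smul_mem (g.y z : ℚ) (hDD z 0)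
  rw [map_smul]
  have e : (g.y z : ℚ) • Psi (D z 0) = (g.y z : ℝ) • Psi (D z 0) := by
    rw [← Rat.cast_smul_eq_qsmul ℝ]
    push_cast
    rfl
  rwa [e] at h2

end Pool.Agent.R615.Cryst
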