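import Mathlib

set_option autoImplicit false

/-!
# A back-and-forth relation between tuples of integers
-/

namespace Pool.Agent.R615.Cryst

/-- `y'` is congruent to a unit multiple of `y` modulo `N`, and `y`, `y'` satisfy the same linear
equations with coefficients of size at most `M` -/
def Rel (N M : ℕ) {ι : Type} [Fintype ι] (y y' : ι → ℤ) : Prop :=
  (∃ m m' : ℤ, (N : ℤ) ∣ m * m' - 1 ∧ ∀ i, (N : ℤ) ∣ y' i - m * y i) ∧
    ∀ c : ι → ℤ, (∀ i, |c i| ≤ M) → (∑ i, c i * y i = 0 ↔ ∑ i, c i * y' i = 0)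

variable {ι : Type} [Fintype ι]

theorem Rel.symm {N M : ℕ} {y y' : ι → ℤ} (h : Rel N M y y') : Rel N M y' y := by
  obtain ⟨⟨m, m', h1, h2⟩, h3⟩ := h
  refine ⟨⟨m', m, by rwa [mul_comm], fun i => ?_⟩, fun c hc => (h3 c hc).symm⟩
  have h4 := dvd_add ((h2 i).mul_left m') (h1.mul_left (y i))
  have e : m' * (y' i - m * y i) + y i * (m * m' - 1) = -(y i - m' * y' i) := by ring
  rw [e] at h4
  exact (dvd_neg).1 h4

theorem Rel.mono {N M N' M' : ℕ} {y y' : ι → ℤ} (h : Rel N M y y') (hN : N' ∣ N) (hM : M' ≤ M) :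
    Rel N' M' y y' := by
  obtain ⟨⟨m, m', h1, h2⟩, h3⟩ := h
  have hN' : (N' : ℤ) ∣ N := by exact_mod_cast hN
  exact ⟨⟨m, m', hN'.trans h1, fun i => hN'.trans (h2 i)⟩,
    fun c hc => h3 c fun i => (hc i).trans (by exact_mod_cast hM)⟩

/-- transport along an equivalence of the index types -/
theorem Rel.equiv {κ : Type} [Fintype κ] {N M : ℕ} {y y' : ι → ℤ} (h : Rel N M y y') (e : κ ≃ ι) :
    Rel N M (fun k => y (e k)) (fun k => y' (e k)) := by
  obtain ⟨⟨m, m', h1, h2⟩, h3⟩ := h
  refine ⟨⟨m, m', h1, fun i => h2 _⟩, fun c hc => ?_⟩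
  have h4 := h3 (fun i => c (e.symm i)) (fun i => hc _)
  rw [← e.sum_comp, ← e.sum_comp] at h4
  simpa using h4

/-- the extension of a tuple by one integer -/
def ext (y : ι → ℤ) (z : ℤ) : Option ι → ℤ := fun o => o.elim z y

theorem ext_sum (c : Option ι → ℤ) (y : ι → ℤ) (z : ℤ) :
    ∑ o, c o * ext y z o = c none * z + ∑ i, c (some i) * y i := by
  rw [Fintype.sum_option]
  rfl

/-- one step of the back-and-forth game -/
theorem step (N M : ℕ) (hN : 0 < N) (hM : 0 < M) {y y' : ι → ℤ}
    (h : Rel (N * M.factorial) (2 * M ^ 2) y y') (z : ℤ) :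
    ∃ z', Rel N M (ext y z) (ext y' z') := by
  obtain ⟨⟨m, m', h1, h2⟩, h3⟩ := h
  have hNN : (N : ℤ) ∣ ((N * M.factorial : ℕ) : ℤ) := by
    push_cast
    exact dvd_mul_right _ _
  have hM2 : M ≤ 2 * M ^ 2 := by nlinarith
  by_cases hr : ∃ (c : ι → ℤ) (e : ℤ), (∀ i, |c i| ≤ M) ∧ |e| ≤ M ∧ e ≠ 0 ∧
      e * z + ∑ i, c i * y i = 0
  · obtain ⟨c, e, hc, he, he0, hce⟩ := hr
    -- `e` divides the factorial
    have hed : e ∣ (M.factorial : ℤ) := by
      rw [← Int.natAbs_dvd]
      have h4 : e.natAbs ∣ M.factorial := by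
        refine Nat.dvd_factorial (Int.natAbs_pos.2 he0) ?_
        have : (e.natAbs : ℤ) ≤ M := by rwa [Int.natCast_natAbs]
        exact_mod_cast this
      exact_mod_cast h4
    have hcong : ((N * M.factorial : ℕ) : ℤ) ∣ ∑ i, c i * y' i - m * ∑ i, c i * y i := by
      have e1 : ∑ i, c i * y' i - m * ∑ i, c i * y i = ∑ i, c i * (y' i - m * y i) := by
        rw [Finset.mul_sum, ← Finset.sum_sub_distrib]
        refine Finset.sum_congr rfl fun i _ => by ring
      rw [e1]
      exact Finset.dvd_sum fun i _ => (h2 i).mul_left _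
    have hNe : (N : ℤ) * e ∣ ((N * M.factorial : ℕ) : ℤ) := by
      push_cast
      exact mul_dvd_mul_left _ hed
    have hs : ∑ i, c i * y i = -(e * z) := by linarith
    rw [hs] at hcong
    have hd1 : e ∣ ∑ i, c i * y' i := by
      have h5 : e ∣ ∑ i, c i * y' i - m * -(e * z) := ((dvd_mul_left e N).trans hNe).trans hcong
      have h6 : e ∣ m * -(e * z) := ⟨-(m * z), by ring⟩
      have := dvd_add h5 h6
      simpa using this
    obtain ⟨w, hw⟩ := hd1
    have hz' : (N : ℤ) ∣ -w - m * z := by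
      have h5 := hNe.trans hcong
      rw [hw] at h5
      have e1 : e * w - m * -(e * z) = e * -(-w - m * z) := by ring
      rw [e1, mul_comm (N : ℤ) e] at h5
      exact dvd_neg.1 ((mul_dvd_mul_iff_left he0).1 h5)
    refine ⟨-w, ⟨m, m', hNN.trans h1, ?_⟩, ?_⟩
    · rintro (_ | i)
      · exact hz'
      · exact hNN.trans (h2 i)
    · intro d hd
      rw [ext_sum, ext_sum]
      have h7 := h3 (fun i => e * d (some i) - d none * c i) (fun i => by
        have a1 := abs_sub (e * d (some i)) (d none * c i)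
        rw [abs_mul, abs_mul] at a1
        have a2 := mul_le_mul he (hd (some i)) (abs_nonneg _) (by positivity : (0 : ℤ) ≤ M)
        have a3 := mul_le_mul (hd none) (hc i) (abs_nonneg _) (by positivity : (0 : ℤ) ≤ M)
        push_cast
        nlinarith)
      have e2 : ∀ f : ι → ℤ, ∑ i, (e * d (some i) - d none * c i) * f i =
          e * ∑ i, d (some i) * f i - d none * ∑ i, c i * f i := by
        intro f
        rw [Finset.mul_sum, Finset.mul_sum, ← Finset.sum_sub_distrib]
        refine Finset.sum_congr rfl fun i _ => by ring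
      rw [e2, e2, hs, hw] at h7
      have k1 : d none * z + ∑ i, d (some i) * y i = 0 ↔
          e * ∑ i, d (some i) * y i - d none * -(e * z) = 0 := by
        have e3 : e * ∑ i, d (some i) * y i - d none * -(e * z) =
            e * (d none * z + ∑ i, d (some i) * y i) := by ring
        rw [e3, mul_eq_zero, or_iff_right he0]
      have k2 : d none * -w + ∑ i, d (some i) * y' i = 0 ↔
          e * ∑ i, d (some i) * y' i - d none * (e * w) = 0 := by
        have e3 : e * ∑ i, d (some i) * y' i - d none * (e * w) =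
            e * (d none * -w + ∑ i, d (some i) * y' i) := by ring
        rw [e3, mul_eq_zero, or_iff_right he0]
      rw [k1, k2, h7]
  · push Not at hr
    let B : ℤ := M * ∑ i, |y' i|
    have hB : 0 ≤ B := by positivity
    have hBd : ∀ d : ι → ℤ, (∀ i, |d i| ≤ M) → |∑ i, d i * y' i| ≤ B := by
      intro d hd
      refine (Finset.abs_sum_le_sum_abs _ _).trans ?_
      change _ ≤ (M : ℤ) * ∑ i, |y' i|
      rw [Finset.mul_sum]
      refine Finset.sum_le_sum fun i _ => ?_
      rw [abs_mul]
      exact mul_le_mul_of_nonneg_right (hd i) (abs_nonneg _)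
    let k : ℤ := |m * z| + B + 1
    have hk : 0 < k := by positivity
    let z' : ℤ := m * z + N * k
    have hz' : B < z' := by
      have a1 : k ≤ N * k := by
        have : (1 : ℤ) ≤ N := by exact_mod_cast hN
        nlinarith
      have a2 := neg_abs_le (m * z)
      change B < m * z + N * k
      have a3 : k = |m * z| + B + 1 := rfl
      linarith
    refine ⟨z', ⟨m, m', hNN.trans h1, ?_⟩, ?_⟩
    · rintro (_ | i)
      · change (N : ℤ) ∣ m * z + N * k - m * z
        exact ⟨k, by ring⟩
      · exact hNN.trans (h2 i)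
    · intro d hd
      rw [ext_sum, ext_sum]
      by_cases hd0 : d none = 0
      · rw [hd0, zero_mul, zero_mul, zero_add, zero_add]
        exact h3 _ fun i => (hd _).trans (by exact_mod_cast hM2)
      · have a1 := hr (fun i => d (some i)) (d none) (fun i => hd _) (hd _) hd0
        refine iff_of_false a1 fun a2 => ?_
        have a3 : |d none * z'| ≤ B := by
          have : d none * z' = -∑ i, d (some i) * y' i := by linarith
          rw [this, abs_neg]
          exact hBd _ fun i => hd _
        rw [abs_mul] at a3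
        have a4 : 1 ≤ |d none| := Int.one_le_abs hd0
        have a5 : z' ≤ |z'| := le_abs_self _
        nlinarith [abs_nonneg z']


/-- the extension of a tuple by finitely many integers -/
theorem steps (n : ℕ) (N M : ℕ) (hN : 0 < N) (hM : 0 < M) :
    ∃ N' M', 0 < N' ∧ 0 < M' ∧ N ∣ N' ∧ M ≤ M' ∧ ∀ (ι : Type) [Fintype ι] (y y' : ι → ℤ),
      Rel N' M' y y' → ∀ z : Fin n → ℤ, ∃ z' : Fin n → ℤ,
        Rel N M (Sum.elim y z) (Sum.elim y' z') := by
  induction n generalizing N M with
  | zero =>
    refine ⟨N, M, hN, hM, dvd_rfl, le_rfl, fun ι _ y y' h z => ⟨z, ?_⟩⟩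
    have h1 := h.equiv (Equiv.sumEmpty ι (Fin 0))
    convert h1 using 1
    · funext k
      rcases k with k | k
      · rfl
      · exact k.elim0
    · funext k
      rcases k with k | k
      · rfl
      · exact k.elim0
  | succ n ih =>
    obtain ⟨N1, M1, h1, h2, h3, h4, h5⟩ := ih N M hN hM
    refine ⟨N1 * M1.factorial, 2 * M1 ^ 2, by positivity, by positivity,
      h3.trans (dvd_mul_right _ _), by nlinarith, fun ι _ y y' h z => ?_⟩
    obtain ⟨z0, hz0⟩ := step N1 M1 h1 h2 h (z 0)
    obtain ⟨z1, hz1⟩ := h5 _ _ _ hz0 (fun i => z i.succ)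
    refine ⟨Fin.cons z0 z1, ?_⟩
    let e : ι ⊕ Fin (n + 1) ≃ Option ι ⊕ Fin n :=
      { toFun := Sum.elim (fun i => Sum.inl (some i)) (Fin.cases (Sum.inl none) Sum.inr)
        invFun := Sum.elim (fun o => o.elim (Sum.inr 0) Sum.inl) (fun i => Sum.inr i.succ)
        left_inv := by
          rintro (i | i)
          · rfl
          · refine Fin.cases ?_ (fun i => ?_) i <;> rfl
        right_inv := by
          rintro ((_ | i) | i) <;> rfl }
    have h6 := hz1.equiv e
    convert h6 using 1
    · funext k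
      rcases k with k | k
      · rfl
      · refine Fin.cases ?_ (fun i => ?_) k <;> rfl
    · funext k
      rcases k with k | k
      · rfl
      · refine Fin.cases ?_ (fun i => ?_) k <;> rfl

/-- the same for an arbitrary finite index type -/
theorem stepsFin (κ : Type) [Fintype κ] (N M : ℕ) (hN : 0 < N) (hM : 0 < M) :
    ∃ N' M', 0 < N' ∧ 0 < M' ∧ ∀ (ι : Type) [Fintype ι] (y y' : ι → ℤ),
      Rel N' M' y y' → ∀ z : κ → ℤ, ∃ z' : κ → ℤ,
        Rel N M (Sum.elim y z) (Sum.elim y' z') := by
  obtain ⟨N', M', h1, h2, -, -, h⟩ := steps (Fintype.card κ) N M hN hM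
  refine ⟨N', M', h1, h2, fun ι _ y y' hy z => ?_⟩
  let e := Fintype.equivFin κ
  obtain ⟨z', hz⟩ := h ι y y' hy (fun i => z (e.symm i))
  refine ⟨fun k => z' (e k), ?_⟩
  have h3 := hz.equiv ((Equiv.refl ι).sumCongr e)
  convert h3 using 1
  · funext k
    rcases k with k | k
    · rfl
    · simp
  · funext k
    rcases k with k | k
    · rfl
    · simp

end Pool.Agent.R615.Cryst
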