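import Pool.Agent.R615.Cryst.Defs
import Pool.Agent.R615.Cryst.Rel

set_option autoImplicit false

/-!
# The group `T ⋊ S_5`, and the types of its elements
-/

open FirstOrder FirstOrder.Language

namespace Pool.Agent.R615.Cryst

/-- the lattice `T` of all `y ∈ ℤ^5` with sum `0` and all coordinates congruent modulo `5` -/
def OK (y : ZMod 5 → ℤ) : Prop := ∑ x, y x = 0 ∧ ∀ x x', (5 : ℤ) ∣ y x - y x'

/-- the group `T ⋊ S_5` -/
@[ext] structure GG where
  /-- the translation part -/
  y : ZMod 5 → ℤ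
  /-- the permutation -/
  p : Equiv.Perm (ZMod 5)
  /-- the translation part is in `T` -/
  ok : OK y

namespace GG

instance : Mul GG := ⟨fun a b => ⟨fun x => a.y x + b.y (a.p⁻¹ x), a.p * b.p, by
  refine ⟨?_, fun x x' => ?_⟩
  · rw [Finset.sum_add_distrib, a.ok.1, zero_add, Equiv.sum_comp a.p⁻¹ b.y, b.ok.1]
  · have := dvd_add (a.ok.2 x x') (b.ok.2 (a.p⁻¹ x) (a.p⁻¹ x'))
    have e : a.y x + b.y (a.p⁻¹ x) - (a.y x' + b.y (a.p⁻¹ x')) =
      a.y x - a.y x' + (b.y (a.p⁻¹ x) - b.y (a.p⁻¹ x')) := by ring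
    rwa [e]⟩⟩

instance : Inv GG := ⟨fun a => ⟨fun x => -a.y (a.p x), a.p⁻¹, by
  refine ⟨?_, fun x x' => ?_⟩
  · rw [Finset.sum_neg_distrib, Equiv.sum_comp a.p a.y, a.ok.1, neg_zero]
  · have := a.ok.2 (a.p x') (a.p x)
    have e : -a.y (a.p x) - -a.y (a.p x') = a.y (a.p x') - a.y (a.p x) := by ring
    rwa [e]⟩⟩

instance : One GG := ⟨⟨fun _ => 0, 1, by simp [OK]⟩⟩

@[simp] theorem mul_y (a b : GG) (x : ZMod 5) : (a * b).y x = a.y x + b.y (a.p⁻¹ x) := rfl
@[simp] theorem mul_p (a b : GG) : (a * b).p = a.p * b.p := rfl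
@[simp] theorem inv_y (a : GG) (x : ZMod 5) : (a⁻¹).y x = -a.y (a.p x) := rfl
@[simp] theorem inv_p (a : GG) : (a⁻¹).p = a.p⁻¹ := rfl
@[simp] theorem one_y (x : ZMod 5) : (1 : GG).y x = 0 := rfl
@[simp] theorem one_p : (1 : GG).p = 1 := rfl

instance : Group GG := Group.ofLeftAxioms
  (fun a b c => by
    refine GG.ext (funext fun x => ?_) (mul_assoc _ _ _)
    simp only [mul_y, mul_p, mul_inv_rev, Equiv.Perm.coe_mul, Function.comp_apply]
    ring)
  (fun a => by
    refine GG.ext (funext fun x => ?_) (one_mul _)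
    simp)
  (fun a => by
    refine GG.ext (funext fun x => ?_) (inv_mul_cancel _)
    simp)

end GG

/-- the coordinates of a tuple -/
def crd {κ : Type} (v : κ → GG) : κ × ZMod 5 → ℤ := fun q => (v q.1).y q.2

/-- the back-and-forth relation for tuples of elements of `GG` -/
def GRel (N M : ℕ) {κ : Type} [Fintype κ] (v v' : κ → GG) : Prop :=
  (∀ k, (v k).p = (v' k).p) ∧ Rel N M (crd v) (crd v')

theorem GRel.symm {N M : ℕ} {κ : Type} [Fintype κ] {v v' : κ → GG} (h : GRel N M v v') :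
    GRel N M v' v := ⟨fun k => (h.1 k).symm, h.2.symm⟩

theorem GRel.mono {N M N' M' : ℕ} {κ : Type} [Fintype κ] {v v' : κ → GG} (h : GRel N M v v')
    (hN : N' ∣ N) (hM : M' ≤ M) : GRel N' M' v v' := ⟨h.1, h.2.mono hN hM⟩

theorem GRel.equiv {κ' κ : Type} [Fintype κ] [Fintype κ'] {N M : ℕ} {v v' : κ → GG}
    (h : GRel N M v v') (e : κ' ≃ κ) : GRel N M (fun k => v (e k)) (fun k => v' (e k)) :=
  ⟨fun k => h.1 _, h.2.equiv (e.prodCongr (Equiv.refl _))⟩

theorem GRel.step (N M : ℕ) (hN : 0 < N) (hM : 0 < M) :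
    ∃ N' M', 0 < N' ∧ 0 < M' ∧ ∀ (κ : Type) [Fintype κ] (v v' : κ → GG),
      GRel N' M' v v' → ∀ g : GG, ∃ g' : GG,
        GRel N M (fun o : Option κ => o.elim g v) (fun o : Option κ => o.elim g' v') := by
  obtain ⟨N', M', h1, h2, h⟩ := stepsFin (ZMod 5) (5 * N) M (by omega) hM
  refine ⟨N', M', h1, h2, fun κ _ v v' hv g => ?_⟩
  obtain ⟨z', hz⟩ := h _ _ _ hv.2 g.y
  obtain ⟨⟨m, m', hm, hmz⟩, hc⟩ := id hz
  have hok : OK z' := by
    refine ⟨?_, fun x x' => ?_⟩
    · have h3 := hc (Sum.elim (fun _ => 0) (fun _ => 1)) (by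
        rintro (_ | _)
        · simp
        · simp only [Sum.elim_inr, abs_one]
          exact_mod_cast hM)
      have h4 : ∑ i, Sum.elim (fun _ : κ × ZMod 5 => (0 : ℤ)) (fun _ : ZMod 5 => 1) i *
          Sum.elim (crd v) g.y i = 0 := by
        rw [Fintype.sum_sum_type]
        simp only [Sum.elim_inl, Sum.elim_inr, zero_mul, Finset.sum_const_zero, one_mul, zero_add]
        exact g.ok.1
      have h5 := h3.1 h4
      rw [Fintype.sum_sum_type] at h5
      simpa using h5
    · have h3 := hmz (Sum.inr x)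
      have h4 := hmz (Sum.inr x')
      simp only [Sum.elim_inr] at h3 h4
      have h5 : (5 : ℤ) ∣ ((5 * N : ℕ) : ℤ) := by push_cast; exact dvd_mul_right _ _
      have h6 := dvd_add (dvd_sub (h5.trans h3) (h5.trans h4)) ((g.ok.2 x x').mul_left m)
      have e : z' x - m * g.y x - (z' x' - m * g.y x') + m * (g.y x - g.y x') = z' x - z' x' := by
        ring
      rwa [e] at h6
  refine ⟨⟨z', g.p, hok⟩, ?_, ?_⟩
  · rintro (_ | k)
    · rfl
    · exact hv.1 k
  · let e : Option κ × ZMod 5 ≃ (κ × ZMod 5) ⊕ ZMod 5 :=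
      { toFun := fun q => q.1.elim (Sum.inr q.2) (fun k => Sum.inl (k, q.2))
        invFun := Sum.elim (fun q => (some q.1, q.2)) (fun x => (none, x))
        left_inv := by rintro ⟨(_ | k), x⟩ <;> rfl
        right_inv := by rintro (q | x) <;> rfl }
    have h7 := (hz.equiv e).mono (dvd_mul_left N 5) le_rfl
    convert h7 using 1
    · funext q
      rcases q with ⟨(_ | k), x⟩ <;> rfl
    · funext q
      rcases q with ⟨(_ | k), x⟩ <;> rfl

/-- terms are linear in the coordinates -/
theorem term_linear {κ : Type} [Fintype κ] [DecidableEq κ] (t : grpLang.Term κ) :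
    ∃ C : ℕ, ∀ π : κ → Equiv.Perm (ZMod 5), ∃ (c : ZMod 5 → κ × ZMod 5 → ℤ)
      (ρ : Equiv.Perm (ZMod 5)), (∀ x q, |c x q| ≤ C) ∧ ∀ v : κ → GG, (∀ k, (v k).p = π k) →
        (t.realize v).p = ρ ∧ ∀ x, (t.realize v).y x = ∑ q, c x q * crd v q := by
  induction t with
  | var k =>
    refine ⟨1, fun π => ⟨fun x q => if q = (k, x) then 1 else 0, π k, fun x q => ?_,
      fun v hv => ⟨hv k, fun x => ?_⟩⟩⟩
    · dsimp only
      split_ifs <;> simp
    · simp [crd]
  | @func l f ts ih =>
    cases f with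
    | mul =>
      obtain ⟨C0, h0⟩ := ih 0
      obtain ⟨C1, h1⟩ := ih 1
      refine ⟨C0 + C1, fun π => ?_⟩
      obtain ⟨c0, ρ0, h0b, h0⟩ := h0 π
      obtain ⟨c1, ρ1, h1b, h1⟩ := h1 π
      refine ⟨fun x q => c0 x q + c1 (ρ0⁻¹ x) q, ρ0 * ρ1, fun x q => ?_, fun v hv => ?_⟩
      · refine (abs_add_le _ _).trans ?_
        push_cast
        exact add_le_add (h0b _ _) (h1b _ _)
      · have e : (Term.func GrpFn.mul ts : grpLang.Term κ).realize v =
            (ts 0).realize v * (ts 1).realize v := rfl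
        rw [e]
        refine ⟨by rw [GG.mul_p, (h0 v hv).1, (h1 v hv).1], fun x => ?_⟩
        rw [GG.mul_y, (h0 v hv).2, (h1 v hv).2, (h0 v hv).1, ← Finset.sum_add_distrib]
        refine Finset.sum_congr rfl fun q _ => by ring
    | inv =>
      obtain ⟨C0, h0⟩ := ih 0
      refine ⟨C0, fun π => ?_⟩
      obtain ⟨c0, ρ0, h0b, h0⟩ := h0 π
      refine ⟨fun x q => -c0 (ρ0 x) q, ρ0⁻¹, fun x q => ?_, fun v hv => ?_⟩
      · rw [abs_neg]
        exact h0b _ _
      · have e : (Term.func GrpFn.inv ts : grpLang.Term κ).realize v =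
            ((ts 0).realize v)⁻¹ := rfl
        rw [e]
        refine ⟨by rw [GG.inv_p, (h0 v hv).1], fun x => ?_⟩
        rw [GG.inv_y, (h0 v hv).2, (h0 v hv).1, ← Finset.sum_neg_distrib]
        refine Finset.sum_congr rfl fun q _ => by ring
    | one =>
      refine ⟨0, fun π => ⟨fun _ _ => 0, 1, fun _ _ => by simp, fun v _ => ?_⟩⟩
      have e : (Term.func GrpFn.one ts : grpLang.Term κ).realize v = 1 := rfl
      rw [e]
      exact ⟨rfl, fun x => by simp⟩

/-- equations between terms are preserved by the relation -/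
theorem eq_transfer {κ : Type} [Fintype κ] (t t' : grpLang.Term κ) :
    ∃ M, 0 < M ∧ ∀ v v' : κ → GG, GRel 1 M v v' →
      (t.realize v = t'.realize v ↔ t.realize v' = t'.realize v') := by
  classical
  obtain ⟨C, h⟩ := term_linear t
  obtain ⟨C', h'⟩ := term_linear t'
  refine ⟨C + C' + 1, by omega, fun v v' hv => ?_⟩
  obtain ⟨c, ρ, hb, h⟩ := h (fun k => (v k).p)
  obtain ⟨c', ρ', hb', h'⟩ := h' (fun k => (v k).p)
  obtain ⟨a1, a2⟩ := h v fun _ => rfl
  obtain ⟨b1, b2⟩ := h' v fun _ => rfl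
  obtain ⟨a1', a2'⟩ := h v' fun k => (hv.1 k).symm
  obtain ⟨b1', b2'⟩ := h' v' fun k => (hv.1 k).symm
  have key : ∀ x, (t.realize v).y x = (t'.realize v).y x ↔
      (t.realize v').y x = (t'.realize v').y x := by
    intro x
    have h3 := hv.2.2 (fun q => c x q - c' x q) (fun q => by
      refine (abs_sub _ _).trans ?_
      push_cast
      have := hb x q
      have := hb' x q
      linarith)
    simp only [sub_mul, Finset.sum_sub_distrib, sub_eq_zero] at h3
    rw [a2, b2, a2', b2']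
    exact h3
  constructor
  · intro he
    refine GG.ext (funext fun x => (key x).1 (by rw [he])) ?_
    rw [a1', b1', ← a1, ← b1, he]
  · intro he
    refine GG.ext (funext fun x => (key x).2 (by rw [he])) ?_
    rw [a1, b1, ← a1', ← b1', he]

theorem formula_transfer {α : Type} [Fintype α] {n : ℕ} (φ : grpLang.BoundedFormula α n) :
    ∃ N M, 0 < N ∧ 0 < M ∧ ∀ (v v' : α → GG) (xs xs' : Fin n → GG),
      GRel N M (Sum.elim v xs) (Sum.elim v' xs') → (φ.Realize v xs ↔ φ.Realize v' xs') := by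
  induction φ with
  | falsum => exact ⟨1, 1, one_pos, one_pos, fun _ _ _ _ _ => Iff.rfl⟩
  | equal t t' =>
    obtain ⟨M, hM, h⟩ := eq_transfer t t'
    exact ⟨1, M, one_pos, hM, fun v v' xs xs' hv => h _ _ hv⟩
  | rel r ts => exact Empty.elim r
  | imp φ ψ ih1 ih2 =>
    obtain ⟨N1, M1, a1, b1, h1⟩ := ih1
    obtain ⟨N2, M2, a2, b2, h2⟩ := ih2
    refine ⟨N1 * N2, M1 + M2, by positivity, by positivity, fun v v' xs xs' hv => ?_⟩
    rw [BoundedFormula.realize_imp, BoundedFormula.realize_imp,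
      h1 v v' xs xs' (hv.mono (dvd_mul_right _ _) (by omega)),
      h2 v v' xs xs' (hv.mono (dvd_mul_left _ _) (by omega))]
  | @all n φ ih =>
    obtain ⟨N, M, hN, hM, h⟩ := ih
    obtain ⟨N', M', hN', hM', hs⟩ := GRel.step N M hN hM
    refine ⟨N', M', hN', hM', fun v v' xs xs' hv => ?_⟩
    have key : ∀ (v v' : α → GG) (xs xs' : Fin n → GG),
        GRel N' M' (Sum.elim v xs) (Sum.elim v' xs') →
        (∀ g, φ.Realize v (Fin.snoc xs g)) → ∀ g', φ.Realize v' (Fin.snoc xs' g') := by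
      intro v v' xs xs' hv hall g'
      obtain ⟨g, hg⟩ := hs _ _ _ hv.symm g'
      refine (h v v' _ _ ?_).1 (hall g)
      let e : α ⊕ Fin (n + 1) ≃ Option (α ⊕ Fin n) :=
        { toFun := Sum.elim (fun a => some (Sum.inl a))
            (Fin.lastCases none (fun i => some (Sum.inr i)))
          invFun := fun o => o.elim (Sum.inr (Fin.last n))
            (Sum.elim Sum.inl (fun i => Sum.inr i.castSucc))
          left_inv := by
            rintro (a | i)
            · rfl
            · refine Fin.lastCases ?_ (fun i => ?_) i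
              · simp
              · simp
          right_inv := by
            rintro (_ | (a | i))
            · simp
            · rfl
            · simp }
      have h8 := (hg.symm).equiv e
      convert h8 using 1
      · funext k
        rcases k with a | i
        · rfl
        · refine Fin.lastCases ?_ (fun i => ?_) i
          · simp [e]
          · simp [e]
      · funext k
        rcases k with a | i
        · rfl
        · refine Fin.lastCases ?_ (fun i => ?_) i
          · simp [e]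
          · simp [e]
    rw [BoundedFormula.realize_all, BoundedFormula.realize_all]
    exact ⟨key v v' xs xs' hv, key v' v xs' xs hv.symm⟩

end Pool.Agent.R615.Cryst
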